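import Pool.Agent.OPG.Mg_MP_fce80c_co.G006

set_option autoImplicit false
set_option linter.unusedSectionVars false

namespace Pool.Agent.OPG

open Finset Polynomial Classical

theorem transport {V : Type} [Fintype V] (G : SimpleGraph V) (t d n : ℕ)
    (hn : Fintype.card V = n) (hfree : G.CliqueFree t)
    (hdeg : ∀ v, G.degree v = d) (Λ : ℝ)
    (hspec : ∀ g : V → ℝ, ∑ v, g v = 0 →
      |∑ v, ∑ v', (if G.Adj v v' then g v * g v' else 0)| ≤ Λ * ∑ v, g v ^ 2) :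
    ∃ G' : SimpleGraph (Fin n), G'.IsRegularOfDegree d ∧ G'.CliqueFree t ∧
      ∀ x : Fin n → ℝ, (∑ i, x i) = 0 →
        |∑ i, ∑ j, (if G'.Adj i j then x i * x j else 0)| ≤ Λ * ∑ i, x i ^ 2 := by
  let e : V ≃ Fin n := Fintype.equivFinOfCardEq hn
  obtain ⟨G', hadj⟩ : ∃ G' : SimpleGraph (Fin n),
      ∀ i j, G'.Adj i j ↔ G.Adj (e.symm i) (e.symm j) := ⟨G.comap e.symm, fun _ _ => Iff.rfl⟩
  let iso : G' ≃g G := ⟨e.symm, fun {a b} => (hadj a b).symm⟩
  refine ⟨G', ?_, ?_, ?_⟩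
  · intro v
    rw [← hdeg (e.symm v)]
    exact (iso.degree_eq v).symm
  · exact hfree.comap iso.isContained
  · intro x hx
    have h1 : ∑ v, x (e v) = 0 := by
      rw [← hx]
      exact Equiv.sum_comp e x
    have h2 := hspec (fun v => x (e v)) h1
    have h3 : ∑ i, ∑ j, (if G'.Adj i j then x i * x j else 0)
        = ∑ v, ∑ v', (if G.Adj v v' then x (e v) * x (e v') else 0) := by
      rw [← Equiv.sum_comp e]
      apply Finset.sum_congr rfl
      intro v _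
      rw [← Equiv.sum_comp e]
      apply Finset.sum_congr rfl
      intro v' _
      have h5 : G'.Adj (e v) (e v') ↔ G.Adj v v' := by
        rw [hadj, Equiv.symm_apply_apply, Equiv.symm_apply_apply]
      by_cases h6 : G.Adj v v'
      · rw [if_pos h6, if_pos (h5.2 h6)]
      · rw [if_neg h6, if_neg (fun h7 => h6 (h5.1 h7))]
    have h4 : ∑ i, x i ^ 2 = ∑ v, x (e v) ^ 2 := (Equiv.sum_comp e (fun i => x i ^ 2)).symm
    rw [h3, h4]
    exact h2

theorem card_KX {F : Type} [Field F] [Fintype F] (l : F →+ ZMod 2) (v : F) (hv : l v ≠ 0) :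
    Fintype.card (KX l) * 2 = Fintype.card F := by
  have h1 := sum_sg l v hv
  have h2 : ∀ g : F, sg (l g) = 2 * (if l g = 0 then (1 : ℝ) else 0) - 1 := by
    intro g
    unfold sg
    split_ifs <;> ring
  simp_rw [h2] at h1
  rw [Finset.sum_sub_distrib, ← Finset.mul_sum, Finset.sum_boole, Finset.sum_const,
    Finset.card_univ, nsmul_eq_mul, mul_one] at h1
  have h3 : ((univ : Finset F).filter (fun g => l g = 0)).card = Fintype.card (KX l) := by
    rw [Fintype.card_subtype]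
  rw [h3] at h1
  have h4 : ((Fintype.card (KX l) * 2 : ℕ) : ℝ) = (Fintype.card F : ℝ) := by
    push_cast
    linarith
  exact_mod_cast h4

theorem numeric (k j : ℕ) (hj : 1 ≤ j) :
    (1 / 4 : ℝ) * ((2 ^ ((j - 1) + (j * (k + 2) + 2 * (j * (k + 2) * k))) : ℕ) : ℝ)
        ^ ((1 : ℝ) - 1 / ((2 * k + 3 : ℕ) : ℝ))
      ≤ ((2 ^ ((j - 1) + (j - 1) + 2 * (j * (k + 2) * k)) : ℕ) : ℝ) := by
  obtain ⟨i, rfl⟩ : ∃ i, j = i + 1 := ⟨j - 1, by omega⟩
  rw [Nat.add_sub_cancel]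
  push_cast
  rw [← Real.rpow_natCast 2, ← Real.rpow_natCast 2, ← Real.rpow_mul (by norm_num)]
  have h4 : (1 / 4 : ℝ) = (2 : ℝ) ^ (-2 : ℝ) := by
    rw [Real.rpow_neg (by norm_num)]
    norm_num
  rw [h4, ← Real.rpow_add (by norm_num)]
  apply Real.rpow_le_rpow_of_exponent_le (by norm_num)
  push_cast
  have ht : (0 : ℝ) < 2 * (k : ℝ) + 3 := by positivity
  have ht1 : 1 / (2 * (k : ℝ) + 3) ≤ 1 := by
    rw [div_le_one ht]
    have : (0 : ℝ) ≤ k := by positivity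
    linarith
  have e1 : (((i : ℝ) + (((i : ℝ) + 1) * ((k : ℝ) + 2) + 2 * (((i : ℝ) + 1) * ((k : ℝ) + 2) * k))))
        * (1 - 1 / (2 * (k : ℝ) + 3))
      = (i : ℝ) + i + 2 * (((i : ℝ) + 1) * ((k : ℝ) + 2) * k) + 1 + 1 / (2 * (k : ℝ) + 3) := by
    field_simp
    ring
  rw [e1]
  linarith

theorem numeric_upper (k j : ℕ) (hj : 1 ≤ j) :
    ((2 ^ ((j - 1) + (j - 1) + 2 * (j * (k + 2) * k)) : ℕ) : ℝ)
      ≤ ((2 ^ ((j - 1) + (j * (k + 2) + 2 * (j * (k + 2) * k))) : ℕ) : ℝ)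
        ^ ((1 : ℝ) - 1 / ((2 * k + 3 : ℕ) : ℝ)) := by
  obtain ⟨i, rfl⟩ : ∃ i, j = i + 1 := ⟨j - 1, by omega⟩
  rw [Nat.add_sub_cancel]
  push_cast
  rw [← Real.rpow_natCast 2, ← Real.rpow_natCast 2, ← Real.rpow_mul (by norm_num)]
  apply Real.rpow_le_rpow_of_exponent_le (by norm_num)
  push_cast
  have ht : (0 : ℝ) < 2 * (k : ℝ) + 3 := by positivity
  have ht1 : 0 ≤ 1 / (2 * (k : ℝ) + 3) := by positivity
  have e1 : (((i : ℝ) + (((i : ℝ) + 1) * ((k : ℝ) + 2) + 2 * (((i : ℝ) + 1) * ((k : ℝ) + 2) * k))))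
        * (1 - 1 / (2 * (k : ℝ) + 3))
      = (i : ℝ) + i + 2 * (((i : ℝ) + 1) * ((k : ℝ) + 2) * k) + 1 + 1 / (2 * (k : ℝ) + 3) := by
    field_simp
    ring
  rw [e1]
  linarith

theorem odd_main_two (k : ℕ) : ∃ C : ℝ, 0 < C ∧ ∃ c : ℝ, 0 < c ∧ ∀ N : ℕ, ∃ n : ℕ, N ≤ n ∧
    ∃ G : SimpleGraph (Fin n), ∃ d : ℕ, G.IsRegularOfDegree d ∧ G.CliqueFree (2 * k + 3) ∧
      c * (n : ℝ) ^ ((1 : ℝ) - 1 / ((2 * k + 3 : ℕ) : ℝ)) ≤ (d : ℝ) ∧
      (d : ℝ) ≤ (n : ℝ) ^ ((1 : ℝ) - 1 / ((2 * k + 3 : ℕ) : ℝ)) ∧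
      ∀ x : Fin n → ℝ, (∑ i, x i) = 0 →
        |∑ i, ∑ j, (if G.Adj i j then x i * x j else 0)| ≤ C * Real.sqrt (d : ℝ) * ∑ i, x i ^ 2 := by
  refine ⟨2 * (k + 2 : ℕ), by positivity, 1 / 4, by norm_num, ?_⟩
  intro N
  set m := k + 2 with hm
  set j := N + m with hjdef
  have hj1 : 1 ≤ j := by omega
  have hj0 : j ≠ 0 := by omega
  have : Fact (Nat.Prime 2) := ⟨Nat.prime_two⟩
  have : NeZero m := ⟨by omega⟩
  let F := GaloisField 2 j
  let _ : Fintype F := Fintype.ofFinite F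
  let K := FiniteField.Extension F 2 m
  let _ : Fintype K := Fintype.ofFinite K
  have hcF : Fintype.card F = 2 ^ j := by
    rw [Fintype.card_eq_nat_card]
    exact GaloisField.card 2 j hj0
  have hcK : Fintype.card K = 2 ^ (j * m) := by
    rw [Fintype.card_eq_nat_card, FiniteField.natCard_extension, ← Fintype.card_eq_nat_card, hcF,
      ← pow_mul]
  have hK2 : CharP K 2 := charP_of_injective_algebraMap (algebraMap F K).injective 2
  have hF : m + 1 ≤ Fintype.card F := by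
    rw [hcF]
    have h1 : j < 2 ^ j := Nat.lt_two_pow_self
    omega
  obtain ⟨θ, htop, hdeg, hcoeff⟩ := exists_gen F K m (by omega)
    (FiniteField.finrank_extension F 2 m) hF
  set f := minpoly F θ with hf
  have hint : IsIntegral F θ := Algebra.IsIntegral.isIntegral θ
  have hmon : f.Monic := minpoly.monic hint
  obtain ⟨l, hl⟩ := exists_ell F (f.coeff (m - 1)) hcoeff
  have hne : ∀ c : F, θ - algebraMap F K c ≠ 0 := fun c => sub_ne θ (by rw [← hf]; omega) c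
  have hθ := mod_surj θ htop m (by omega) hdeg
  have hL : Algebra.trace F K ≠ 0 := by
    intro h
    obtain ⟨y, hy⟩ := Algebra.trace_surjective F K 1
    rw [h, LinearMap.zero_apply] at hy
    exact zero_ne_one hy
  have hX : Fintype.card (KX l) = 2 ^ (j - 1) := by
    have h1 := card_KX l _ hl
    rw [hcF] at h1
    have h2 : 2 ^ j = 2 ^ (j - 1) * 2 := by
      rw [← pow_succ, Nat.sub_add_cancel hj1]
    rw [h2] at h1
    exact Nat.eq_of_mul_eq_mul_right (by norm_num) h1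
  have hW : Fintype.card (Fin k → K × K) = 2 ^ (2 * (j * m * k)) := by
    rw [Fintype.card_fun, Fintype.card_prod, Fintype.card_fin, hcK, ← pow_add, ← pow_mul]
    ring_nf
  set G := oddGraph l θ hne k with hG
  have hV : Fintype.card (OV l K k) = 2 ^ ((j - 1) + (j * m + 2 * (j * m * k))) := by
    rw [Fintype.card_prod, Fintype.card_prod, hX, hcK, hW, ← pow_add, ← pow_add]
  set d := 2 ^ ((j - 1) + (j - 1) + 2 * (j * m * k)) with hd
  have hdeg' : ∀ v, G.degree v = d := by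
    intro v
    rw [hG, oddGraph_degree l θ hne k v, hX, hW, ← pow_add, ← pow_add]
  have hfree : G.CliqueFree (2 * k + 3) :=
    oddGraph_cliqueFree l θ hne k f hmon hdeg (fun g hg => minpoly.dvd F θ hg)
      (fun y => by
        obtain ⟨g, _, hg⟩ := hθ y
        exact ⟨g, hg⟩) hl
  have hsqrt : (Fintype.card (KX l) : ℝ) * Real.sqrt (Fintype.card (Fin k → K × K))
      = Real.sqrt (d : ℝ) := by
    rw [hX, hW, hd]
    have e1 : ((2 ^ ((j - 1) + (j - 1) + 2 * (j * m * k)) : ℕ) : ℝ)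
        = ((2 ^ (j - 1) : ℕ) : ℝ) ^ 2 * ((2 ^ (2 * (j * m * k)) : ℕ) : ℝ) := by
      push_cast
      rw [pow_add, pow_add]
      ring
    rw [e1, Real.sqrt_mul (by positivity), Real.sqrt_sq (by positivity)]
  obtain ⟨G', hreg, hfree', hspec⟩ := transport G (2 * k + 3) d _ hV hfree hdeg'
    (2 * (m : ℝ) * Real.sqrt (d : ℝ)) (by
      intro g hg
      have := oddGraph_spectral l _ hl θ m (Algebra.trace F K) hL hθ hne k g hg
      rw [← hsqrt, ← mul_assoc]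
      exact this)
  refine ⟨_, ?_, G', d, hreg, hfree', ?_, ?_, hspec⟩
  · have h1 : j < 2 ^ j := Nat.lt_two_pow_self
    have h2 : 2 ^ j ≤ 2 ^ ((j - 1) + (j * m + 2 * (j * m * k))) := by
      apply Nat.pow_le_pow_right (by norm_num)
      have h3 : j ≤ j * m := Nat.le_mul_of_pos_right j (by omega)
      omega
    omega
  · exact numeric k j hj1
  · exact numeric_upper k j hj1

theorem odd_main (k : ℕ) : ∃ C : ℝ, 0 < C ∧ ∃ c : ℝ, 0 < c ∧ ∀ N : ℕ, ∃ n : ℕ, N ≤ n ∧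
    ∃ G : SimpleGraph (Fin n), ∃ d : ℕ, G.IsRegularOfDegree d ∧ G.CliqueFree (2 * k + 3) ∧
      c * (n : ℝ) ^ ((1 : ℝ) - 1 / ((2 * k + 3 : ℕ) : ℝ)) ≤ (d : ℝ) ∧
      ∀ x : Fin n → ℝ, (∑ i, x i) = 0 →
        |∑ i, ∑ j, (if G.Adj i j then x i * x j else 0)|
          ≤ C * Real.sqrt (d : ℝ) * ∑ i, x i ^ 2 := by
  obtain ⟨C, hC, c, hc, h⟩ := odd_main_two k
  refine ⟨C, hC, c, hc, fun N => ?_⟩
  obtain ⟨n, hn, G, d, h1, h2, h3, _, h5⟩ := h N
  exact ⟨n, hn, G, d, h1, h2, h3, h5⟩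

end Pool.Agent.OPG
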