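import Pool.Agent.OPG.Mg_MP_fce80c_co.G002
import Pool.Agent.OPG.OddMain
import Pool.Agent.OPG.Mg_MP_fce80c_co.G005

set_option autoImplicit false
set_option linter.unusedSectionVars false

namespace Pool.Agent.OPG

open Finset Polynomial Classical IntermediateField

/-- A generator with prescribed absolute trace. -/
theorem exists_gen_trace (F K : Type) [Field F] [Fintype F] [Algebra (ZMod 2) F] [Field K]
    [Algebra F K]
    [FiniteDimensional F K] [Algebra.IsSeparable F K] (m : ℕ) (hm : 2 ≤ m)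
    (hfr : Module.finrank F K = m) (hF : m + 1 ≤ Fintype.card F) :
    ∃ θ : K, F⟮θ⟯ = ⊤ ∧ (minpoly F θ).natDegree = m ∧
      Algebra.trace (ZMod 2) F (Algebra.trace F K θ) = 1 ∧
      (minpoly F θ).coeff (m - 1) = - Algebra.trace F K θ := by
  have : Fact (Nat.Prime 2) := ⟨Nat.prime_two⟩
  have hcoeff : ∀ θ : K, F⟮θ⟯ = ⊤ → (minpoly F θ).natDegree = m →
      (minpoly F θ).coeff (m - 1) = - Algebra.trace F K θ := by
    intro θ hθtop hdθ
    have hint : IsIntegral F θ := Algebra.IsIntegral.isIntegral θ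
    have hadj : Algebra.adjoin F {θ} = ⊤ := by
      rw [← IntermediateField.adjoin_simple_toSubalgebra_of_isAlgebraic hint.isAlgebraic, hθtop]
      rfl
    have h3 := PowerBasis.trace_gen_eq_nextCoeff_minpoly (PowerBasis.ofAdjoinEqTop hint hadj)
    rw [PowerBasis.ofAdjoinEqTop_gen] at h3
    rw [h3, nextCoeff, if_neg (by omega), hdθ, neg_neg]
  obtain ⟨θ₀, htop, hdeg, hne⟩ := exists_gen F K m hm hfr hF
  rw [hcoeff θ₀ htop hdeg] at hne
  have hτ : Algebra.trace F K θ₀ ≠ 0 := fun h => hne (by rw [h, neg_zero])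
  obtain ⟨b, hb⟩ := Algebra.trace_surjective (ZMod 2) F 1
  set β : F := b / Algebra.trace F K θ₀ with hβ
  have hb0 : b ≠ 0 := by
    intro h
    rw [h, map_zero] at hb
    exact zero_ne_one hb
  have hβ0 : β ≠ 0 := div_ne_zero hb0 hτ
  have htop' : F⟮β • θ₀⟯ = ⊤ := by
    rw [← top_le_iff, ← htop, IntermediateField.adjoin_simple_le_iff]
    have h1 := IntermediateField.smul_mem (x := β⁻¹) _
      (IntermediateField.mem_adjoin_simple_self F (β • θ₀))
    rwa [smul_smul, inv_mul_cancel₀ hβ0, one_smul] at h1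
  have hdeg' : (minpoly F (β • θ₀)).natDegree = m := by
    rw [(Field.primitive_element_iff_minpoly_natDegree_eq F (β • θ₀)).1 htop', hfr]
  refine ⟨β • θ₀, htop', hdeg', ?_, hcoeff _ htop' hdeg'⟩
  rw [map_smul, smul_eq_mul, hβ, div_mul_cancel₀ _ hτ, hb]

theorem even_numeric (k j n d : ℕ) (A W : ℝ) (hA : A = (2 : ℝ) ^ (j * (k + 2)))
    (hW : W = (2 : ℝ) ^ (2 * (j * (k + 2) * k))) (hA2 : 2 ≤ A) (hj : 1 ≤ j)
    (hn : (n : ℝ) = (A - 1) * A * W) (hd : (d : ℝ) = (A - 1) * 2 ^ (j - 1) * W) :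
    (1 / 4 : ℝ) * (n : ℝ) ^ ((1 : ℝ) - 1 / ((2 * k + 4 : ℕ) : ℝ)) ≤ (d : ℝ) ∧
      (d : ℝ) ≤ (n : ℝ) ^ ((1 : ℝ) - 1 / ((2 * k + 4 : ℕ) : ℝ)) := by
  have hW0 : 0 < W := by rw [hW]; positivity
  have hn0 : 0 < (n : ℝ) := by
    rw [hn]
    have : 0 < A - 1 := by linarith
    positivity
  have ht : (0 : ℝ) < ((2 * k + 4 : ℕ) : ℝ) := by positivity
  set t : ℝ := ((2 * k + 4 : ℕ) : ℝ) with htdef
  -- `A ^ 2 W = 2 ^ (t j (k + 1))`
  have hAW : A ^ 2 * W = (2 : ℝ) ^ (t * ((j : ℝ) * ((k : ℝ) + 1))) := by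
    rw [hA, hW, ← pow_mul, ← pow_add, ← Real.rpow_natCast]
    congr 1
    rw [htdef]
    push_cast
    ring
  have hup : (n : ℝ) ≤ (2 : ℝ) ^ (t * ((j : ℝ) * ((k : ℝ) + 1))) := by
    rw [← hAW, hn]
    have : (A - 1) * A ≤ A ^ 2 := by nlinarith
    exact mul_le_mul_of_nonneg_right this hW0.le
  have hlo : (2 : ℝ) ^ (t * ((j : ℝ) * ((k : ℝ) + 1)) - 1) ≤ (n : ℝ) := by
    rw [Real.rpow_sub (by norm_num), Real.rpow_one, ← hAW, hn]
    have : A ^ 2 / 2 ≤ (A - 1) * A := by nlinarith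
    calc A ^ 2 * W / 2 = A ^ 2 / 2 * W := by ring
      _ ≤ (A - 1) * A * W := mul_le_mul_of_nonneg_right this hW0.le
  have hsplit : (n : ℝ) ^ ((1 : ℝ) - 1 / t) = n * (n : ℝ) ^ (-(1 / t)) := by
    rw [sub_eq_add_neg, Real.rpow_add hn0, Real.rpow_one]
  have h2j : (2 : ℝ) ^ (j - 1) = 2 ^ j / 2 := by
    obtain ⟨i, rfl⟩ : ∃ i, j = i + 1 := ⟨j - 1, by omega⟩
    rw [Nat.add_sub_cancel, pow_succ]
    ring
  have hAj : A * (2 : ℝ) ^ (-((j : ℝ) * ((k : ℝ) + 1))) = 2 ^ j := by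
    rw [hA, ← Real.rpow_natCast, ← Real.rpow_add (by norm_num), ← Real.rpow_natCast]
    congr 1
    push_cast
    ring
  -- the two inequalities for `n ^ (-1/t)`
  have hinv_lo : (2 : ℝ) ^ (-((j : ℝ) * ((k : ℝ) + 1))) ≤ (n : ℝ) ^ (-(1 / t)) := by
    have h1 := Real.rpow_le_rpow_of_nonpos hn0 hup (by
      rw [neg_nonpos]; positivity : -(1 / t) ≤ 0)
    rw [← Real.rpow_mul (by norm_num)] at h1
    refine le_trans (le_of_eq ?_) h1
    congr 1
    field_simp
  have hinv_up : (n : ℝ) ^ (-(1 / t)) ≤ 2 * (2 : ℝ) ^ (-((j : ℝ) * ((k : ℝ) + 1))) := by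
    have h1 := Real.rpow_le_rpow_of_nonpos (by positivity) hlo (by
      rw [neg_nonpos]; positivity : -(1 / t) ≤ 0)
    rw [← Real.rpow_mul (by norm_num)] at h1
    refine h1.trans ?_
    have h2 : (2 : ℝ) * (2 : ℝ) ^ (-((j : ℝ) * ((k : ℝ) + 1)))
        = (2 : ℝ) ^ (1 + -((j : ℝ) * ((k : ℝ) + 1))) := by
      rw [Real.rpow_add (by norm_num), Real.rpow_one]
    rw [h2]
    apply Real.rpow_le_rpow_of_exponent_le (by norm_num)
    have h3 : (t * ((j : ℝ) * ((k : ℝ) + 1)) - 1) * -(1 / t)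
        = -((j : ℝ) * ((k : ℝ) + 1)) + 1 / t := by
      field_simp
      ring
    rw [h3]
    have h4 : 1 / t ≤ 1 := by
      rw [div_le_one ht, htdef]
      exact_mod_cast (by omega : 1 ≤ 2 * k + 4)
    linarith
  have hA1 : 0 < A - 1 := by linarith
  constructor
  · rw [hsplit, hd, h2j]
    calc (1 / 4 : ℝ) * (n * (n : ℝ) ^ (-(1 / t)))
        ≤ (1 / 4 : ℝ) * (n * (2 * (2 : ℝ) ^ (-((j : ℝ) * ((k : ℝ) + 1))))) :=
          mul_le_mul_of_nonneg_left (mul_le_mul_of_nonneg_left hinv_up hn0.le) (by norm_num)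
      _ = 1 / 2 * ((A - 1) * W * (A * (2 : ℝ) ^ (-((j : ℝ) * ((k : ℝ) + 1))))) := by
          rw [hn]
          ring
      _ = (A - 1) * (2 ^ j / 2) * W := by
          rw [hAj]
          ring
  · rw [hsplit, hd, h2j]
    calc (A - 1) * (2 ^ j / 2) * W = 1 / 2 * ((A - 1) * W * 2 ^ j) := by ring
      _ ≤ (A - 1) * W * 2 ^ j := by
          have : 0 ≤ (A - 1) * W * 2 ^ j := by positivity
          linarith
      _ = n * (2 : ℝ) ^ (-((j : ℝ) * ((k : ℝ) + 1))) := by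
          rw [← hAj, hn]
          ring
      _ ≤ n * (n : ℝ) ^ (-(1 / t)) := mul_le_mul_of_nonneg_left hinv_lo hn0.le

theorem even_main_two (k : ℕ) : ∃ C : ℝ, 0 < C ∧ ∃ c : ℝ, 0 < c ∧ ∀ N : ℕ, ∃ n : ℕ, N ≤ n ∧
    ∃ G : SimpleGraph (Fin n), ∃ d : ℕ, G.IsRegularOfDegree d ∧ G.CliqueFree (2 * k + 4) ∧
      c * (n : ℝ) ^ ((1 : ℝ) - 1 / ((2 * k + 4 : ℕ) : ℝ)) ≤ (d : ℝ) ∧
      (d : ℝ) ≤ (n : ℝ) ^ ((1 : ℝ) - 1 / ((2 * k + 4 : ℕ) : ℝ)) ∧
      ∀ x : Fin n → ℝ, (∑ i, x i) = 0 →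
        |∑ i, ∑ j, (if G.Adj i j then x i * x j else 0)| ≤ C * Real.sqrt (d : ℝ) * ∑ i, x i ^ 2 := by
  refine ⟨2 * (k + 2 : ℕ), by positivity, 1 / 4, by norm_num, ?_⟩
  intro N
  set m := k + 2 with hm
  set j := N + m with hjdef
  have hj1 : 1 ≤ j := by omega
  have hj0 : j ≠ 0 := by omega
  have : Fact (Nat.Prime 2) := ⟨Nat.prime_two⟩
  have : NeZero m := ⟨by omega⟩
  let F := GaloisField 2 j
  let _ : Fintype F := Fintype.ofFinite F
  let K := FiniteField.Extension F 2 m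
  let _ : Fintype K := Fintype.ofFinite K
  have hcF : Fintype.card F = 2 ^ j := by
    rw [Fintype.card_eq_nat_card]
    exact GaloisField.card 2 j hj0
  have hcK : Fintype.card K = 2 ^ (j * m) := by
    rw [Fintype.card_eq_nat_card, FiniteField.natCard_extension, ← Fintype.card_eq_nat_card, hcF,
      ← pow_mul]
  have hK2 : CharP K 2 := charP_of_injective_algebraMap (algebraMap F K).injective 2
  have hF : m + 1 ≤ Fintype.card F := by
    rw [hcF]
    have h1 : j < 2 ^ j := Nat.lt_two_pow_self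
    omega
  have hfr : Module.finrank F K = m := FiniteField.finrank_extension F 2 m
  obtain ⟨θ, htop, hdeg, htr, hcoeff⟩ := exists_gen_trace F K m (by omega) hfr hF
  set f := minpoly F θ with hf
  have hint : IsIntegral F θ := Algebra.IsIntegral.isIntegral θ
  have hmon : f.Monic := minpoly.monic hint
  set l : F →+ ZMod 2 := (Algebra.trace (ZMod 2) F).toAddMonoidHom with hldef
  have hl : l (f.coeff (m - 1)) ≠ 0 := by
    rw [hcoeff]
    change Algebra.trace (ZMod 2) F (-Algebra.trace F K θ) ≠ 0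
    rw [map_neg, htr]
    exact neg_ne_zero.2 one_ne_zero
  have hne : ∀ c : F, θ - algebraMap F K c ≠ 0 := fun c => sub_ne θ (by rw [← hf]; omega) c
  have hθ := mod_surj θ htop m (by omega) hdeg
  have hL : Algebra.trace F K ≠ 0 := by
    intro h
    rw [h, LinearMap.zero_apply, map_zero] at htr
    exact zero_ne_one htr
  have hX : Fintype.card (KX l) = 2 ^ (j - 1) := by
    have h1 := card_KX l _ hl
    rw [hcF] at h1
    have h2 : 2 ^ j = 2 ^ (j - 1) * 2 := by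
      rw [← pow_succ, Nat.sub_add_cancel hj1]
    rw [h2] at h1
    exact Nat.eq_of_mul_eq_mul_right (by norm_num) h1
  have hW : Fintype.card (Fin k → K × K) = 2 ^ (2 * (j * m * k)) := by
    rw [Fintype.card_fun, Fintype.card_prod, Fintype.card_fin, hcK, ← pow_add, ← pow_mul]
    ring_nf
  have hcKu : Fintype.card Kˣ = 2 ^ (j * m) - 1 := by
    rw [Fintype.card_units, hcK]
  set G := evenGraph l θ hne k with hG
  set n := (2 ^ (j * m) - 1) * (2 ^ (j * m) * 2 ^ (2 * (j * m * k))) with hn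
  have hV : Fintype.card (EV K k) = n := by
    rw [Fintype.card_prod, Fintype.card_prod, hcKu, hcK, hW]
  set d := (2 ^ (j * m) - 1) * 2 ^ (j - 1) * 2 ^ (2 * (j * m * k)) with hd
  have hdeg' : ∀ v, G.degree v = d := by
    intro v
    rw [hG, evenGraph_degree l θ hne k v, hX, hW, hcKu]
  have hfree : G.CliqueFree (2 * k + 4) :=
    evenGraph_cliqueFree l θ hne k f hmon hdeg (fun g hg => minpoly.dvd F θ hg)
      (fun y => by
        obtain ⟨g, _, hg⟩ := hθ y
        exact ⟨g, hg⟩) hl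
  have hT : ∀ χ : MulChar K ℂ, χ ≠ 1 → ‖∑ b : KX l, χ (xm l θ b)‖
      ≤ (m : ℝ) * Real.sqrt (Fintype.card F) := by
    intro χ hχ
    have h1 := Katz.line_sum (F := F) θ m (by omega) hfr hθ htr χ hχ
    have h2 : ∑ b : KX l, χ (xm l θ b)
        = ∑ u : {u : F // Algebra.trace (ZMod 2) F u = 0}, χ (θ + algebraMap F K u) := by
      apply Fintype.sum_equiv (Equiv.refl _)
      intro b
      unfold xm
      rw [CharTwo.sub_eq_add]
      rfl
    rw [h2]
    exact h1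
  have hpow2 : 2 ≤ 2 ^ (j * m) := by
    have : 2 ^ 1 ≤ 2 ^ (j * m) := Nat.pow_le_pow_right (by norm_num)
      (Nat.one_le_iff_ne_zero.2 (Nat.mul_ne_zero hj0 (by omega)))
    simpa using this
  have hAcast : (((2 ^ (j * m) - 1 : ℕ)) : ℝ) = (2 : ℝ) ^ (j * m) - 1 := by
    rw [Nat.cast_sub (by omega)]
    push_cast
    ring
  have hA2 : (2 : ℝ) ≤ (2 : ℝ) ^ (j * m) := by exact_mod_cast hpow2
  have hsqrt : max ((m : ℝ) * Real.sqrt (Fintype.card F) * Real.sqrt (Fintype.card K))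
      (Fintype.card (KX l)) * Real.sqrt (Fintype.card (Fin k → K × K))
      ≤ 2 * ((m : ℕ) : ℝ) * Real.sqrt (d : ℝ) := by
    have hm1 : (1 : ℝ) ≤ (m : ℝ) := by exact_mod_cast (by omega : 1 ≤ m)
    have hW0 : (0 : ℝ) ≤ (Fintype.card (Fin k → K × K) : ℝ) := by positivity
    have hdR : (d : ℝ) = ((2 : ℝ) ^ (j * m) - 1) * 2 ^ (j - 1)
        * (Fintype.card (Fin k → K × K) : ℝ) := by
      rw [hd, hW]
      push_cast
      rw [hAcast]
    have hj2 : (2 : ℝ) ^ j = 2 * 2 ^ (j - 1) := by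
      rw [← pow_succ', Nat.sub_add_cancel hj1]
    have hFK : (Fintype.card F : ℝ) * (Fintype.card K : ℝ) * (Fintype.card (Fin k → K × K) : ℝ)
        ≤ 4 * (d : ℝ) := by
      rw [hdR, hcF, hcK]
      push_cast
      rw [hj2]
      have h5 : (2 : ℝ) ^ (j * m) ≤ 2 * ((2 : ℝ) ^ (j * m) - 1) := by linarith
      have h6 : (0 : ℝ) ≤ 2 * 2 ^ (j - 1) := by positivity
      calc (2 : ℝ) * 2 ^ (j - 1) * 2 ^ (j * m) * (Fintype.card (Fin k → K × K) : ℝ)
          ≤ 2 * 2 ^ (j - 1) * (2 * ((2 : ℝ) ^ (j * m) - 1))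
            * (Fintype.card (Fin k → K × K) : ℝ) :=
            mul_le_mul_of_nonneg_right (mul_le_mul_of_nonneg_left h5 h6) hW0
        _ = _ := by ring
    have hs4 : Real.sqrt ((Fintype.card F : ℝ) * (Fintype.card K : ℝ)
        * (Fintype.card (Fin k → K × K) : ℝ)) ≤ 2 * Real.sqrt (d : ℝ) := by
      have h7 : (2 : ℝ) * Real.sqrt (d : ℝ) = Real.sqrt (4 * (d : ℝ)) := by
        rw [Real.sqrt_mul (by norm_num)]
        congr 1
        rw [show (4 : ℝ) = 2 ^ 2 by norm_num, Real.sqrt_sq (by norm_num)]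
      rw [h7]
      exact Real.sqrt_le_sqrt hFK
    have hfirst : (m : ℝ) * Real.sqrt (Fintype.card F) * Real.sqrt (Fintype.card K)
        * Real.sqrt (Fintype.card (Fin k → K × K)) ≤ 2 * (m : ℝ) * Real.sqrt (d : ℝ) := by
      calc (m : ℝ) * Real.sqrt (Fintype.card F) * Real.sqrt (Fintype.card K)
            * Real.sqrt (Fintype.card (Fin k → K × K))
          = (m : ℝ) * Real.sqrt ((Fintype.card F : ℝ) * (Fintype.card K : ℝ)
            * (Fintype.card (Fin k → K × K) : ℝ)) := by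
            rw [Real.sqrt_mul (by positivity), Real.sqrt_mul (by positivity)]
            ring
        _ ≤ (m : ℝ) * (2 * Real.sqrt (d : ℝ)) :=
            mul_le_mul_of_nonneg_left hs4 (by positivity)
        _ = _ := by ring
    have hsecond : (Fintype.card (KX l) : ℝ) * Real.sqrt (Fintype.card (Fin k → K × K))
        ≤ 2 * (m : ℝ) * Real.sqrt (d : ℝ) := by
      have h8 : (Fintype.card (KX l) : ℝ)
          ≤ Real.sqrt ((Fintype.card F : ℝ) * (Fintype.card K : ℝ)) := by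
        apply Real.le_sqrt_of_sq_le
        rw [hX, hcF, hcK]
        push_cast
        rw [← pow_mul, ← pow_add]
        apply pow_le_pow_right₀ (by norm_num)
        have : j ≤ j * m := Nat.le_mul_of_pos_right j (by omega)
        omega
      calc (Fintype.card (KX l) : ℝ) * Real.sqrt (Fintype.card (Fin k → K × K))
          ≤ Real.sqrt ((Fintype.card F : ℝ) * (Fintype.card K : ℝ))
            * Real.sqrt (Fintype.card (Fin k → K × K)) :=
            mul_le_mul_of_nonneg_right h8 (Real.sqrt_nonneg _)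
        _ = Real.sqrt ((Fintype.card F : ℝ) * (Fintype.card K : ℝ)
            * (Fintype.card (Fin k → K × K) : ℝ)) := by
            rw [← Real.sqrt_mul (by positivity)]
        _ ≤ 2 * Real.sqrt (d : ℝ) := hs4
        _ ≤ 2 * (m : ℝ) * Real.sqrt (d : ℝ) := by
            have : 0 ≤ Real.sqrt (d : ℝ) := Real.sqrt_nonneg _
            nlinarith
    rcases le_total ((m : ℝ) * Real.sqrt (Fintype.card F) * Real.sqrt (Fintype.card K))
      ((Fintype.card (KX l) : ℝ)) with h9 | h9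
    · rw [max_eq_right h9]
      exact hsecond
    · rw [max_eq_left h9]
      exact hfirst
  obtain ⟨G', hreg, hfree', hspec⟩ := transport G (2 * k + 4) d _ hV hfree hdeg'
    (2 * ((m : ℕ) : ℝ) * Real.sqrt (d : ℝ)) (by
      intro g hg
      have := evenGraph_spectral l _ hl θ (Algebra.trace F K) hL hne
        ((m : ℝ) * Real.sqrt (Fintype.card F)) hT k g hg
      refine this.trans ?_
      exact mul_le_mul_of_nonneg_right hsqrt (Finset.sum_nonneg fun _ _ => sq_nonneg _))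
  have hnum := even_numeric k j n d ((2 : ℝ) ^ (j * m)) ((2 : ℝ) ^ (2 * (j * m * k))) rfl rfl
    hA2 hj1 (by
      rw [hn]
      push_cast
      rw [hAcast]
      ring) (by
      rw [hd]
      push_cast
      rw [hAcast])
  refine ⟨n, ?_, G', d, hreg, hfree', hnum.1, hnum.2, hspec⟩
  have h1 : j < 2 ^ j := Nat.lt_two_pow_self
  have h2 : 2 ^ j ≤ 2 ^ (j * m) :=
    Nat.pow_le_pow_right (by norm_num) (Nat.le_mul_of_pos_right j (by omega))
  have h3 : 1 ≤ 2 ^ (2 * (j * m * k)) := Nat.one_le_two_pow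
  have h4 : 2 ^ (j * m) ≤ n := by
    rw [hn]
    calc 2 ^ (j * m) = 1 * (2 ^ (j * m) * 1) := by ring
      _ ≤ (2 ^ (j * m) - 1) * (2 ^ (j * m) * 2 ^ (2 * (j * m * k))) :=
        Nat.mul_le_mul (by omega) (Nat.mul_le_mul_left _ h3)
  omega

end Pool.Agent.OPG
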